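import Pool.Agent.Helper58.Main

/-!
Iterated group jumps are in general not single group jumps.

`groupJump G E` is the `G`-jump `E^[G]` and `BorelReducible` is Borel reducibility; both are
defined in `Pool.Agent.Helper58.Jump`.
-/

set_option autoImplicit false

open MulAction

namespace Pool.Agent.Results.MP_9b97c3_lc.DoubleJump

open Pool.Agent.Helper58

universe u v w u1 u2 u3

/-- Let `G` and `H` be countably infinite groups and let `E` be an equivalence relation with at
least two classes on a Polish space `X` which is Borel bireducible with the orbit equivalence
relation of a Borel action of a countable group `Γ` on a Polish space `Y` (for instance `E` itself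
can be such an orbit equivalence relation, or equality on a two point space). Then for every
countable group `K` the relation `(E^[G])^[H]` is not Borel reducible to `E^[K]`; in particular the
two are not Borel bireducible. -/
theorem result {G : Type u} {H : Type v} {K : Type w} {Γ : Type u1} {X : Type u2} {Y : Type u3}
    [Group G] [Countable G] [Infinite G] [Group H] [Countable H] [Infinite H]
    [Group K] [Countable K]
    [TopologicalSpace X] [PolishSpace X] [TopologicalSpace Y] [PolishSpace Y]
    [Group Γ] [Countable Γ] [MulAction Γ Y]
    (hΓ : ∀ γ : Γ, @Measurable Y Y (borel Y) (borel Y) (fun y => γ • y))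
    (E : Setoid X) (hE : BorelReducible E (orbitRel Γ Y)) (hE' : BorelReducible (orbitRel Γ Y) E)
    (hne : ∃ x x' : X, ¬ E x x') :
    ¬ BorelReducible (groupJump H (groupJump G E)) (groupJump K E) := by
  intro h
  have h1 : BorelReducible (groupJump H (groupJump G (orbitRel Γ Y)))
      (groupJump K (orbitRel Γ Y)) :=
    ((hE'.jump G).jump H).trans (h.trans (hE.jump K))
  refine not_borelReducible_orbitRel hΓ ?_ h1
  obtain ⟨x, x', hx⟩ := hne
  obtain ⟨f, -, hf⟩ := hE
  exact ⟨f x, f x', fun h2 => hx ((hf x x').2 h2)⟩

end Pool.Agent.Results.MP_9b97c3_lc.DoubleJump
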